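import Pool.Agent.W519.GM.Count

/-!
# Products of gamma values with prime denominator

Let `p ≥ 7` be a prime number and `z` a real number. We count the tuples `(a_1, ..., a_r)` of
integers between `1` and `p - 1` for which the product of the `Γ(a_i/p)` is an algebraic multiple of
`z`. There are at most `3 (p-1)^(r-1)` of them if `r ≥ 2`, and for `r = 1` their number `N` satisfies
`N (N - 1) ≤ 2 (p - 1)`.

With `z = π^(r/2)`: there are at most this many counterexamples with denominator `p` to the
conjecture of Rohrlich on products of length `r`; so it holds for almost all of the `(p-1)^r`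
products of length `r`. With `z = 1`: all but at most `√(2p) + 1` of the numbers
`Γ(1/p), ..., Γ((p-1)/p)` are transcendental.

The hypothesis `BetaRatios p` is a theorem of Wolfart and Wüstholz: the quotient of the two values
`B(a/p, b/p)`, `B(c/p, d/p)` of the beta function with `a + b ≡ c + d` is transcendental if the CM types
(of the differential forms on the Fermat curve of which they are the periods) are different. We show
that for a prime number `p ≥ 7` the types are different, except for `{a, b} = {c, d}`. So the set of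
the `a` with `Γ(a/p)` in a class modulo the algebraic numbers is a Sidon set (up to `a + b = p`).
-/

namespace Pool.Agent.Results.MP_c2409d_nt.PrimeDenominators

open Pool.Agent.W519.GM

/-- The set of all `r`-tuples of integers `a_i` with `0 < a_i < p` for which the product of the
`Γ(a_i/p)` is an algebraic multiple of `z`. -/
def tuples (p : ℕ) (z : ℝ) (r : ℕ) : Set (Fin r → ℕ) :=
  {a | (∀ i, 0 < a i ∧ a i < p) ∧
    ∃ α : ℝ, IsAlgebraic ℚ α ∧ ∏ i, Real.Gamma ((a i : ℝ) / p) = α * z}

theorem tuples_le (p : ℕ) [hp : Fact p.Prime] (z : ℝ) (r : ℕ) :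
    (tuples p z r).ncard ≤ Set.ncard {x : Fin r → (ZMod p)ˣ | AlgMultiple z (∏ i, g (x i))} := by
  have h0 : ∀ a : ℕ, 0 < a ∧ a < p → IsUnit (a : ZMod p) := fun a ha => by
    rw [isUnit_iff_ne_zero, Ne, ZMod.natCast_eq_zero_iff]
    exact Nat.not_dvd_of_pos_of_lt ha.1 ha.2
  classical
  let F : (Fin r → ℕ) → Fin r → (ZMod p)ˣ := fun a i =>
    if h : 0 < a i ∧ a i < p then (h0 (a i) h).unit else 1
  have hF : ∀ a, (∀ i, 0 < a i ∧ a i < p) → ∀ i, ((F a i : (ZMod p)ˣ) : ZMod p).val = a i := by
    intro a ha i
    simp only [F]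
    rw [dif_pos (ha i), IsUnit.unit_spec, ZMod.val_natCast_of_lt (ha i).2]
  refine Set.ncard_le_ncard_of_injOn F (fun a ha => ?_) ?_ (Set.toFinite _)
  · obtain ⟨h1, α, hα, h2⟩ := ha
    refine ⟨α, hα, ?_⟩
    rw [← h2]
    refine Finset.prod_congr rfl fun i _ => ?_
    unfold g
    rw [hF a h1 i]
  · intro a ha b hb hab
    funext i
    rw [← hF a ha.1 i, ← hF b hb.1 i, hab]

/-- **Products of gamma values with prime denominator.** -/
theorem result (p : ℕ) (hp : p.Prime) (h7 : 7 ≤ p) (W : BetaRatios p) (z : ℝ) :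
    (tuples p z 1).ncard * ((tuples p z 1).ncard - 1) ≤ 2 * (p - 1) ∧
    ∀ r : ℕ, 2 ≤ r → (tuples p z r).ncard ≤ 3 * (p - 1) ^ (r - 1) := by
  classical
  have : Fact p.Prime := ⟨hp⟩
  constructor
  · have h1 := tuples_le p z 1
    have h2 : Set.ncard {x : Fin 1 → (ZMod p)ˣ | AlgMultiple z (∏ i, g (x i))} ≤
        (Finset.univ.filter fun x : (ZMod p)ˣ => AlgMultiple z (g x)).card := by
      rw [← Set.ncard_coe_finset]
      refine Set.ncard_le_ncard_of_injOn (fun x => x 0) (fun x hx => ?_) ?_ (Set.toFinite _)
      · rw [Finset.mem_coe, Finset.mem_filter]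
        refine ⟨Finset.mem_univ _, ?_⟩
        have h3 : AlgMultiple z (∏ i, g (x i)) := hx
        rwa [Fin.prod_univ_one] at h3
      · intro x _ y _ hxy
        funext i
        rw [Subsingleton.elim i 0]
        exact hxy
    have h3 := card_single h7 W z
    have h4 := h1.trans h2
    exact (Nat.mul_le_mul h4 (Nat.sub_le_sub_right h4 1)).trans h3
  · intro r hr
    obtain ⟨r, rfl⟩ : ∃ s, r = s + 2 := ⟨r - 2, by omega⟩
    refine (tuples_le p z (r + 2)).trans ?_
    have h3 := card_tuples h7 W z r
    rw [← Set.ncard_coe_finset] at h3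
    have h5 : r + 2 - 1 = r + 1 := rfl
    rw [h5]
    refine le_trans (Set.ncard_le_ncard (fun x hx => ?_) (Set.toFinite _)) h3
    rw [Finset.mem_coe, Finset.mem_filter]
    exact ⟨Finset.mem_univ _, hx⟩

end Pool.Agent.Results.MP_c2409d_nt.PrimeDenominators
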